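import Pool.Agent.H.MP_9c4767_co.A

/-!
Many cyclic Steiner triple systems from one difference family.
-/

namespace Pool.Agent.H.MP_72c5f4_co

open Finset Pool.Agent.STSAut

/-- cyclic Steiner quasigroup from its third-point function -/
def cyc {n : ℕ} (f : ZMod n → ZMod n) (h0 : f 0 = 0) (h1 : ∀ d, f (f d) = d)
    (h2 : ∀ d, f (-d) = f d - d) : SQ (ZMod n) where
  op x y := x + f (y - x)
  idem x := by simp [h0]
  comm x y := by rw [← neg_sub y x, h2]; ring
  canc x y := by simp [h1]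

theorem iso_of {V : Type} [Fintype V] [DecidableEq V] (Q R : SQ V) (α : Equiv.Perm V)
    (h : ∀ b : Finset V, b ∈ Q.blocks ↔ b.map α.toEmbedding ∈ R.blocks) (x y : V) :
    α (Q.op x y) = R.op (α x) (α y) := by
  by_cases hxy : x = y
  · subst hxy; rw [Q.idem, R.idem]
  · have h1 := (h _).1 (Q.mem_blocks.2 ⟨x, y, hxy, rfl⟩)
    have h2 := R.block_eq h1 (α.injective.ne hxy) (by simp) (by simp)
    have h3 : α (Q.op x y) ∈ ({α x, α y, R.op (α x) (α y)} : Finset V) := by
      rw [← h2]; simp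
    simp only [mem_insert, mem_singleton, α.injective.eq_iff] at h3
    rcases h3 with h3 | h3 | h3
    · exact absurd h3 (Q.op_ne_left hxy)
    · exact absurd h3 (Q.op_ne_right hxy)
    · exact h3

theorem greedy {ι : Type} [DecidableEq ι] (r : ι → ι → Prop) [DecidableRel r]
    (hs : ∀ a b, r a b → r b a) (K : ℕ) (hK : 0 < K) (M : ℕ) : ∀ X : Finset ι,
    (∀ a, (X.filter (r a)).card ≤ K) → M * K ≤ X.card →
    ∃ g : Fin M → ι, (∀ i, g i ∈ X) ∧ ∀ i j, i ≠ j → ¬ r (g i) (g j) := by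
  induction M with
  | zero => intro X _ _; exact ⟨Fin.elim0, fun i => i.elim0, fun i => i.elim0⟩
  | succ M ih =>
    intro X h1 h2
    obtain ⟨x, hx⟩ : X.Nonempty := card_pos.1 (by nlinarith)
    have h3 := card_filter_add_card_filter_not (s := X) (r x)
    obtain ⟨g, g1, g2⟩ := ih (X.filter fun y => ¬ r x y)
      (fun a => (card_le_card (filter_subset_filter _ (filter_subset _ _))).trans (h1 a))
      (by have := h1 x; nlinarith)
    refine ⟨Fin.cons x g, fun i => ?_, fun i j hij => ?_⟩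
    · refine Fin.cases hx (fun i => (mem_filter.1 (g1 i)).1) i
    · revert hij
      refine Fin.cases ?_ (fun i => ?_) i <;> refine Fin.cases ?_ (fun j => ?_) j <;> intro hij
      · exact absurd rfl hij
      · exact (mem_filter.1 (g1 j)).2
      · exact fun h => (mem_filter.1 (g1 i)).2 (hs _ _ h)
      · exact g2 i j fun e => hij (by rw [e])

theorem cls {n : ℕ} [NeZero n] {ι : Type} [Fintype ι] [DecidableEq ι] (Q : ι → SQ (ZMod n))
    (hc : ∀ i x y, (Q i).op (x + 1) (y + 1) = (Q i).op x y + 1)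
    (hi : ∀ i j, (∀ x y, (Q i).op x y = (Q j).op x y) → i = j) (a : ι)
    (X : Finset ι)
    (hX : ∀ i ∈ X, ∃ σ : Equiv.Perm (ZMod n), ∀ x y, σ ((Q a).op x y) = (Q i).op (σ x) (σ y)) :
    X.card ≤ n ^ (Nat.log 2 (n + 1) + 1) := by
  classical
  choose! σ hσ using hX
  obtain ⟨S, hS, hg⟩ := (Q a).gen (fun _ _ => True) Set.univ (fun _ _ _ => trivial)
    (fun _ _ _ => trivial)
  rw [ZMod.card] at hS
  have aut : ∀ i ∈ X, ∀ x y, (σ i).symm (σ i ((Q a).op x y) + 1) =
      (Q a).op ((σ i).symm (σ i x + 1)) ((σ i).symm (σ i y + 1)) := by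
    intro i hi x y
    apply (σ i).injective
    rw [hσ i hi, hσ i hi]
    simp [hc]
  have := card_le_card_of_injOn (s := X) (t := (univ : Finset (ZMod n × (S → ZMod n))))
    (fun i => ((σ i).symm 0, fun s => (σ i).symm (σ i s + 1))) (by simp) (by
      intro i hi' j hj e
      have e1 : (σ i).symm 0 = (σ j).symm 0 := congrArg Prod.fst e
      have e2 : ∀ x, (σ i).symm (σ i x + 1) = (σ j).symm (σ j x + 1) := fun x =>
        hg {x | (σ i).symm (σ i x + 1) = (σ j).symm (σ j x + 1)} (fun x hx y hy _ => by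
          change _ = _
          rw [aut i hi', aut j hj, hx, hy])
          (fun s hs => congrFun (congrArg Prod.snd e) ⟨s, hs⟩) trivial
      have e3 : ∀ m : ℕ, (σ i).symm m = (σ j).symm m := by
        intro m
        induction m with
        | zero => simpa using e1
        | succ m ih =>
          have := e2 ((σ i).symm m)
          rw [Equiv.apply_symm_apply] at this
          push_cast
          rw [this, ih, Equiv.apply_symm_apply]
      have e4 : σ i = σ j := by
        apply Equiv.symm_bijective.injective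
        ext z
        rw [← ZMod.natCast_zmod_val z]; exact e3 _
      apply hi
      intro x y
      have a1 := hσ i hi' ((σ i).symm x) ((σ i).symm y)
      have a2 := hσ j hj ((σ i).symm x) ((σ i).symm y)
      rw [← e4, a1] at a2
      simpa using a2)
  refine this.trans ?_
  simp only [card_univ, Fintype.card_prod, Fintype.card_fun, ZMod.card, Fintype.card_coe]
  rw [pow_succ, mul_comm]
  exact Nat.mul_le_mul_right _ (Nat.pow_le_pow_right (Nat.pos_of_ne_zero (NeZero.ne n))
    (Nat.le_log_of_pow_le (by norm_num) hS))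

theorem num1 (L : ℕ) (h : 12 ≤ L) : 6 * (L + (L + 1) ^ 2) + 4 ≤ 2 ^ L := by
  induction L, h using Nat.le_induction with
  | base => norm_num
  | succ L h ih => rw [pow_succ 2 L]; nlinarith

theorem num (M n k : ℕ) (hn : 2 ^ (M + 12) ≤ n) (hk : n ≤ 6 * k + 3) :
    M * n ^ (Nat.log 2 (n + 1) + 1) ≤ 2 ^ k := by
  set L := Nat.log 2 (n + 1) with hL
  have h1 : M + 12 ≤ L := Nat.le_log_of_pow_le (by norm_num) (by omega)
  have h2 : n + 1 < 2 ^ (L + 1) := Nat.lt_pow_succ_log_self (by norm_num) _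
  have h3 : 2 ^ L ≤ n + 1 := Nat.pow_log_le_self 2 (by omega)
  have h4 := num1 L (by omega)
  have h5 : M + (L + 1) * (L + 1) ≤ k := by nlinarith
  calc M * n ^ (L + 1) ≤ 2 ^ M * (2 ^ (L + 1)) ^ (L + 1) :=
        Nat.mul_le_mul Nat.lt_two_pow_self.le (Nat.pow_le_pow_left (by omega) _)
    _ = 2 ^ (M + (L + 1) * (L + 1)) := by rw [← pow_mul, ← pow_add]
    _ ≤ 2 ^ k := Nat.pow_le_pow_right (by norm_num) h5

/-- the three differences of the `i`-th triple -/
def U (b : ℕ → ℕ) (p : Fin 3) (i : ℕ) : ℕ := if p = 0 then i else if p = 1 then b i else i + b i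

/-- partner of a difference -/
def tau (e : Bool) (x : Fin 3 × Bool) : Fin 3 × Bool :=
  if x.2 = e then (if x.1 = 0 then (2, e) else if x.1 = 1 then (0, !e) else (0, e))
  else (if x.1 = 0 then (1, e) else if x.1 = 1 then (2, !e) else (1, !e))

theorem many (n k : ℕ) [NeZero n] (hnk : n = 6 * k + 1 ∨ n = 6 * k + 3) (b : ℕ → ℕ)
    (h1 : ∀ p i, 1 ≤ i → i ≤ k → 0 < U b p i ∧ U b p i < n ∧ 3 * U b p i ≠ n ∧ 3 * U b p i ≠ 2 * n)
    (h2 : ∀ p q i j, 1 ≤ i → i ≤ k → 1 ≤ j → j ≤ k →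
      (U b p i = U b q j → p = q ∧ i = j) ∧ U b p i + U b q j ≠ n) :
    ∃ Q : (Fin k → Bool) → SQ (ZMod n),
      (∀ i x y, (Q i).op (x + 1) (y + 1) = (Q i).op x y + 1) ∧
      (∀ i j, (∀ x y, (Q i).op x y = (Q j).op x y) → i = j) := by
  classical
  let ψ : Fin k × Fin 3 × Bool → ℕ := fun x =>
    if x.2.2 then U b x.2.1 (x.1 + 1) else n - U b x.2.1 (x.1 + 1)
  let φ : Fin k × Fin 3 × Bool → ZMod n := fun x => ψ x
  have ψ1 : ∀ x, 0 < ψ x ∧ ψ x < n ∧ 3 * ψ x ≠ n ∧ 3 * ψ x ≠ 2 * n := by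
    rintro ⟨i, p, σ⟩
    have := h1 p (i + 1) (by omega) (by omega)
    cases σ <;> simp only [ψ] <;> simp <;> omega
  have ψi : Function.Injective ψ := by
    rintro ⟨i, p, σ⟩ ⟨j, q, τ⟩ h
    have a1 := h1 p (i + 1) (by omega) (by omega)
    have a2 := h1 q (j + 1) (by omega) (by omega)
    have a3 := h2 p q (i + 1) (j + 1) (by omega) (by omega) (by omega) (by omega)
    cases σ <;> cases τ <;> simp only [ψ] at h <;> simp at h
    · obtain ⟨rfl, e⟩ := a3.1 (by omega)
      rw [Fin.ext (show (i : ℕ) = j by omega)]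
    · omega
    · omega
    · obtain ⟨rfl, e⟩ := a3.1 h
      rw [Fin.ext (show (i : ℕ) = j by omega)]
  have cinj : ∀ a c : ℕ, a < n → c < n → (a : ZMod n) = c → a = c := fun a c ha hc h => by
    have := congrArg ZMod.val h
    rwa [ZMod.val_cast_of_lt ha, ZMod.val_cast_of_lt hc] at this
  have φi : Function.Injective φ := fun x y h => ψi (cinj _ _ (ψ1 x).2.1 (ψ1 y).2.1 h)
  have φt : ∀ i p, φ (i, p, true) = (U b p (i + 1) : ZMod n) := fun i p => rfl
  have φf : ∀ i p, φ (i, p, false) = -(U b p (i + 1) : ZMod n) := fun i p => by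
    change ((n - U b p (i + 1) : ℕ) : ZMod n) = _
    rw [Nat.cast_sub (h1 p (i + 1) (by omega) (by omega)).2.1.le]; simp
  have φn : ∀ i p σ, -φ (i, p, σ) = φ (i, p, !σ) := fun i p σ => by
    cases σ <;> simp [φt, φf]
  have out : ∀ d, (¬ ∃ x, φ x = d) → 3 * d = 0 := by
    intro d hd
    let H : Finset ℕ := if n = 6 * k + 1 then {0} else {0, 2 * k + 1, 4 * k + 2}
    have hH : ∀ t ∈ H, t < n ∧ (t = 0 ∨ 3 * t = n ∨ 3 * t = 2 * n) := by
      intro t ht
      simp only [H] at ht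
      split_ifs at ht <;> simp only [mem_insert, mem_singleton] at ht <;> omega
    have cH : 6 * k + H.card = n := by
      simp only [H]
      split_ifs with h
      · simp [h]
      · rw [card_eq_three.2 ⟨_, _, _, by omega, by omega, by omega, rfl⟩]; omega
    have dj : Disjoint (univ.image ψ) H := by
      rw [disjoint_left]
      intro t ht ht'
      obtain ⟨x, -, rfl⟩ := mem_image.1 ht
      have := ψ1 x
      have := hH _ ht'
      omega
    have : univ.image ψ ∪ H = range n := by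
      apply eq_of_subset_of_card_le
      · intro t ht
        rcases mem_union.1 ht with ht | ht
        · obtain ⟨x, -, rfl⟩ := mem_image.1 ht
          exact mem_range.2 (ψ1 x).2.1
        · exact mem_range.2 (hH t ht).1
      · rw [card_union_of_disjoint dj, card_image_of_injective _ ψi]
        simp only [card_range, card_univ, Fintype.card_prod, Fintype.card_fin, Fintype.card_bool]
        omega
    have hv : d.val ∈ univ.image ψ ∪ H := by rw [this]; exact mem_range.2 (ZMod.val_lt d)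
    rcases mem_union.1 hv with hv | hv
    · obtain ⟨x, -, hx⟩ := mem_image.1 hv
      exact absurd ⟨x, by simp only [φ, hx, ZMod.natCast_zmod_val]⟩ hd
    · rw [← ZMod.natCast_zmod_val d]
      rcases (hH _ hv).2 with h | h | h
      · rw [h]; simp
      · have := congrArg (Nat.cast : ℕ → ZMod n) h
        simpa using this
      · have := congrArg (Nat.cast : ℕ → ZMod n) h
        simpa using this
  let f : (Fin k → Bool) → ZMod n → ZMod n := fun ε =>
    Function.extend φ (fun x => φ (x.1, tau (ε x.1) x.2)) (fun d => -d)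
  have fi : ∀ ε x, f ε (φ x) = φ (x.1, tau (ε x.1) x.2) := fun ε x => φi.extend_apply _ _ x
  have fo : ∀ ε d, (¬ ∃ x, φ x = d) → f ε d = -d := fun ε d h => Function.extend_apply' _ _ _ h
  have no : ∀ d, (¬ ∃ x, φ x = d) → ¬ ∃ x, φ x = -d := by
    rintro d hd ⟨⟨i, p, σ⟩, h⟩
    exact hd ⟨(i, p, !σ), by rw [← φn, h, neg_neg]⟩
  have f0 : ∀ ε, f ε 0 = 0 := fun ε => by
    rw [fo, neg_zero]
    rintro ⟨x, hx⟩
    have := cinj _ 0 (ψ1 x).2.1 (Nat.pos_of_ne_zero (NeZero.ne n)) (by simpa using hx)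
    have := (ψ1 x).1
    omega
  have tt : ∀ e x, tau e (tau e x) = x := by decide
  have f1 : ∀ ε d, f ε (f ε d) = d := fun ε d => by
    by_cases h : ∃ x, φ x = d
    · obtain ⟨x, rfl⟩ := h
      rw [fi, fi, tt]
    · rw [fo ε d h, fo ε _ (no d h), neg_neg]
  have f2 : ∀ ε d, f ε (-d) = f ε d - d := fun ε d => by
    by_cases h : ∃ x, φ x = d
    · obtain ⟨⟨i, p, σ⟩, rfl⟩ := h
      rw [φn, fi, fi]
      dsimp only
      generalize ε i = e
      fin_cases p <;> cases σ <;> cases e <;> simp [tau, φt, φf, U] <;> ring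
    · rw [fo ε d h, fo ε _ (no d h)]
      linear_combination out d h
  refine ⟨fun ε => cyc (f ε) (f0 ε) (f1 ε) (f2 ε), fun ε x y => ?_, fun ε ε' h => ?_⟩
  · change x + 1 + f ε (y + 1 - (x + 1)) = x + f ε (y - x) + 1
    rw [add_sub_add_right_eq_sub]; ring
  · funext i
    have := h 0 (φ (i, 0, true))
    change 0 + f ε (_ - 0) = 0 + f ε' (_ - 0) at this
    rw [sub_zero, zero_add, zero_add, fi, fi] at this
    have := congrArg Prod.snd (φi this)
    dsimp only at this
    revert this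
    generalize ε i = a, ε' i = c
    revert a c; decide

theorem final (M n k : ℕ) (hn : 2 ^ (M + 12) ≤ n) (hnk : n = 6 * k + 1 ∨ n = 6 * k + 3)
    (b : ℕ → ℕ)
    (h1 : ∀ p i, 1 ≤ i → i ≤ k → 0 < U b p i ∧ U b p i < n ∧ 3 * U b p i ≠ n ∧ 3 * U b p i ≠ 2 * n)
    (h2 : ∀ p q i j, 1 ≤ i → i ≤ k → 1 ≤ j → j ≤ k →
      (U b p i = U b q j → p = q ∧ i = j) ∧ U b p i + U b q j ≠ n) :
    ∃ B : Fin M → Finset (Finset (ZMod n)),
        (∀ i, (∀ b ∈ B i, b.card = 3) ∧
          (∀ x y : ZMod n, x ≠ y → ∃! b : Finset (ZMod n), b ∈ B i ∧ x ∈ b ∧ y ∈ b) ∧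
          (∀ b ∈ B i, b.image (fun x => x + 1) ∈ B i)) ∧
        (∀ i j, i ≠ j → ¬ ∃ σ : Equiv.Perm (ZMod n),
          ∀ b : Finset (ZMod n), b ∈ B i ↔ b.map σ.toEmbedding ∈ B j) := by
  classical
  haveI : NeZero n := ⟨by omega⟩
  obtain ⟨Q, q1, q2⟩ := many n k hnk b h1 h2
  obtain ⟨g, -, hg⟩ := greedy (fun a c => ∃ σ : Equiv.Perm (ZMod n),
      ∀ x y, σ ((Q a).op x y) = (Q c).op (σ x) (σ y)) (by
      rintro a c ⟨σ, h⟩
      refine ⟨σ.symm, fun x y => σ.injective ?_⟩
      rw [h]; simp) (n ^ (Nat.log 2 (n + 1) + 1)) (pow_pos (by omega) _) M univ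
    (fun a => cls Q q1 q2 a _ fun i hi => (mem_filter.1 hi).2)
    (by simpa using num M n k hn (by omega))
  refine ⟨fun i => (Q (g i)).blocks, fun i => ⟨(Q _).card_block, (Q _).exu, ?_⟩, ?_⟩
  · exact SQ.IsAut.image (α := Equiv.addRight 1) fun x y => (q1 _ x y).symm
  · rintro i j hij ⟨σ, h⟩
    exact hg i j hij ⟨σ, iso_of _ _ σ h⟩

end Pool.Agent.H.MP_72c5f4_co
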