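import Pool.Agent.H.MP_72c5f4_co.A

/-!
Peltesohn's solutions of Heffter's difference problems.
-/

namespace Pool.Agent.H.MP_72c5f4_co

theorem red (n k : ℕ) (b : ℕ → ℕ)
    (h1 : ∀ i, 1 ≤ i → i ≤ k → 0 < b i ∧ i + b i < n ∧ 3 * i < n ∧ 3 * b i ≠ n ∧ 3 * b i ≠ 2 * n ∧
      3 * (i + b i) ≠ n ∧ 3 * (i + b i) ≠ 2 * n)
    (h2 : ∀ i j, 1 ≤ i → i ≤ k → 1 ≤ j → j ≤ k → i ≠ b j ∧ i ≠ j + b j ∧ b i ≠ j + b j ∧
      (b i = b j → i = j) ∧ (i + b i = j + b j → i = j))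
    (h3 : ∀ i j, 1 ≤ i → i ≤ k → 1 ≤ j → j ≤ k → i + b j ≠ n ∧ i + (j + b j) ≠ n ∧
      b i + b j ≠ n ∧ b i + (j + b j) ≠ n ∧ i + b i + (j + b j) ≠ n) :
    (∀ p i, 1 ≤ i → i ≤ k →
      0 < U b p i ∧ U b p i < n ∧ 3 * U b p i ≠ n ∧ 3 * U b p i ≠ 2 * n) ∧
    (∀ p q i j, 1 ≤ i → i ≤ k → 1 ≤ j → j ≤ k →
      (U b p i = U b q j → p = q ∧ i = j) ∧ U b p i + U b q j ≠ n) := by
  constructor
  · intro p i a1 a2
    have := h1 i a1 a2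
    fin_cases p <;> simp [U] <;> omega
  · intro p q i j a1 a2 a3 a4
    have := h1 i a1 a2
    have := h1 j a3 a4
    have := h2 i j a1 a2 a3 a4
    have := h2 j i a3 a4 a1 a2
    have := h3 i j a1 a2 a3 a4
    have := h3 j i a3 a4 a1 a2
    fin_cases p <;> fin_cases q <;> simp [U] <;> omega

theorem c1 (s : ℕ) (hs : 4 ≤ s) : ∃ b : ℕ → ℕ,
    (∀ p i, 1 ≤ i → i ≤ 3 * s → 0 < U b p i ∧ U b p i < 18 * s + 1 ∧
      3 * U b p i ≠ 18 * s + 1 ∧ 3 * U b p i ≠ 2 * (18 * s + 1)) ∧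
    (∀ p q i j, 1 ≤ i → i ≤ 3 * s → 1 ≤ j → j ≤ 3 * s →
      (U b p i = U b q j → p = q ∧ i = j) ∧ U b p i + U b q j ≠ 18 * s + 1) := by
  refine ⟨fun i => if i = 3 * s then 3 * s + 1 else if i % 3 = 1 then 4 * s + 1 - i / 3 else if i % 3 = 2 then 8 * s - i / 3 else 6 * s + 1 - 2 * (i / 3), red _ _ _ ?_ ?_ ?_⟩
  · intro i a1 a2
    split_ifs <;> omega
  · intro i j a1 a2 a3 a4
    split_ifs <;> omega
  · intro i j a1 a2 a3 a4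
    split_ifs <;> omega

theorem c7 (s : ℕ) (hs : 4 ≤ s) : ∃ b : ℕ → ℕ,
    (∀ p i, 1 ≤ i → i ≤ 3 * s + 1 → 0 < U b p i ∧ U b p i < 18 * s + 7 ∧
      3 * U b p i ≠ 18 * s + 7 ∧ 3 * U b p i ≠ 2 * (18 * s + 7)) ∧
    (∀ p q i j, 1 ≤ i → i ≤ 3 * s + 1 → 1 ≤ j → j ≤ 3 * s + 1 →
      (U b p i = U b q j → p = q ∧ i = j) ∧ U b p i + U b q j ≠ 18 * s + 7) := by
  refine ⟨fun i => if i = 3 * s + 1 then 4 * s + 2 else if i % 3 = 1 then 8 * s + 3 - i / 3 else if i % 3 = 2 then 6 * s + 1 - 2 * (i / 3) else 4 * s + 2 - i / 3, red _ _ _ ?_ ?_ ?_⟩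
  · intro i a1 a2
    split_ifs <;> omega
  · intro i j a1 a2 a3 a4
    split_ifs <;> omega
  · intro i j a1 a2 a3 a4
    split_ifs <;> omega

theorem c13 (s : ℕ) (hs : 4 ≤ s) : ∃ b : ℕ → ℕ,
    (∀ p i, 1 ≤ i → i ≤ 3 * s + 2 → 0 < U b p i ∧ U b p i < 18 * s + 13 ∧
      3 * U b p i ≠ 18 * s + 13 ∧ 3 * U b p i ≠ 2 * (18 * s + 13)) ∧
    (∀ p q i j, 1 ≤ i → i ≤ 3 * s + 2 → 1 ≤ j → j ≤ 3 * s + 2 →
      (U b p i = U b q j → p = q ∧ i = j) ∧ U b p i + U b q j ≠ 18 * s + 13) := by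
  refine ⟨fun i => if i = 3 * s + 2 then 7 * s + 5 else if i % 3 = 1 then 4 * s + 3 - i / 3 else if i % 3 = 2 then 6 * s + 3 - 2 * (i / 3) else 8 * s + 6 - i / 3, red _ _ _ ?_ ?_ ?_⟩
  · intro i a1 a2
    split_ifs <;> omega
  · intro i j a1 a2 a3 a4
    split_ifs <;> omega
  · intro i j a1 a2 a3 a4
    split_ifs <;> omega

theorem c3 (s : ℕ) (hs : 4 ≤ s) : ∃ b : ℕ → ℕ,
    (∀ p i, 1 ≤ i → i ≤ 3 * s → 0 < U b p i ∧ U b p i < 18 * s + 3 ∧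
      3 * U b p i ≠ 18 * s + 3 ∧ 3 * U b p i ≠ 2 * (18 * s + 3)) ∧
    (∀ p q i j, 1 ≤ i → i ≤ 3 * s → 1 ≤ j → j ≤ 3 * s →
      (U b p i = U b q j → p = q ∧ i = j) ∧ U b p i + U b q j ≠ 18 * s + 3) := by
  refine ⟨fun i => if i % 3 = 1 then 8 * s + 1 - i / 3 else if i % 3 = 2 then 4 * s - i / 3 else 6 * s + 1 - 2 * (i / 3), red _ _ _ ?_ ?_ ?_⟩
  · intro i a1 a2
    split_ifs <;> omega
  · intro i j a1 a2 a3 a4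
    split_ifs <;> omega
  · intro i j a1 a2 a3 a4
    split_ifs <;> omega

set_option maxHeartbeats 4000000 in
theorem c9 (s : ℕ) (hs : 4 ≤ s) : ∃ b : ℕ → ℕ,
    (∀ p i, 1 ≤ i → i ≤ 3 * s + 1 → 0 < U b p i ∧ U b p i < 18 * s + 9 ∧
      3 * U b p i ≠ 18 * s + 9 ∧ 3 * U b p i ≠ 2 * (18 * s + 9)) ∧
    (∀ p q i j, 1 ≤ i → i ≤ 3 * s + 1 → 1 ≤ j → j ≤ 3 * s + 1 →
      (U b p i = U b q j → p = q ∧ i = j) ∧ U b p i + U b q j ≠ 18 * s + 9) := by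
  refine ⟨fun i => if i = 2 then 8 * s + 3 else if i = 3 then 8 * s + 1 else if i = 5 then 8 * s + 2 else if i + 1 = 3 * s then 3 * s + 2 else if i = 3 * s then 7 * s + 3 else if i % 3 = 1 then 4 * s + 3 - i / 3 else if i % 3 = 2 then 8 * s + 2 - i / 3 else 6 * s + 3 - 2 * (i / 3), red _ _ _ ?_ ?_ ?_⟩
  · intro i a1 a2
    split_ifs <;> omega
  · intro i j a1 a2 a3 a4
    split_ifs <;> omega
  · intro i j a1 a2 a3 a4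
    split_ifs <;> omega

theorem c15 (s : ℕ) (hs : 4 ≤ s) : ∃ b : ℕ → ℕ,
    (∀ p i, 1 ≤ i → i ≤ 3 * s + 2 → 0 < U b p i ∧ U b p i < 18 * s + 15 ∧
      3 * U b p i ≠ 18 * s + 15 ∧ 3 * U b p i ≠ 2 * (18 * s + 15)) ∧
    (∀ p q i j, 1 ≤ i → i ≤ 3 * s + 2 → 1 ≤ j → j ≤ 3 * s + 2 →
      (U b p i = U b q j → p = q ∧ i = j) ∧ U b p i + U b q j ≠ 18 * s + 15) := by
  refine ⟨fun i => if i % 3 = 1 then 4 * s + 3 - i / 3 else if i % 3 = 2 then 8 * s + 6 - i / 3 else 6 * s + 5 - 2 * (i / 3), red _ _ _ ?_ ?_ ?_⟩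
  · intro i a1 a2
    split_ifs <;> omega
  · intro i j a1 a2 a3 a4
    split_ifs <;> omega
  · intro i j a1 a2 a3 a4
    split_ifs <;> omega

theorem main : ∀ M : ℕ, ∃ N : ℕ, ∀ n : ℕ, N ≤ n → (n % 6 = 1 ∨ n % 6 = 3) →
      ∃ B : Fin M → Finset (Finset (ZMod n)),
        (∀ i, (∀ b ∈ B i, b.card = 3) ∧
          (∀ x y : ZMod n, x ≠ y → ∃! b : Finset (ZMod n), b ∈ B i ∧ x ∈ b ∧ y ∈ b) ∧
          (∀ b ∈ B i, b.image (fun x => x + 1) ∈ B i)) ∧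
        (∀ i j, i ≠ j → ¬ ∃ σ : Equiv.Perm (ZMod n),
          ∀ b : Finset (ZMod n), b ∈ B i ↔ b.map σ.toEmbedding ∈ B j) := by
  intro M
  refine ⟨2 ^ (M + 12), fun n hn h => ?_⟩
  have h12 : 2 ^ 12 ≤ 2 ^ (M + 12) := Nat.pow_le_pow_right (by norm_num) (by omega)
  obtain ⟨s, hs, hr⟩ : ∃ s, 4 ≤ s ∧ (n = 18 * s + 1 ∨ n = 18 * s + 7 ∨ n = 18 * s + 13 ∨
      n = 18 * s + 3 ∨ n = 18 * s + 9 ∨ n = 18 * s + 15) := ⟨n / 18, by omega, by omega⟩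
  rcases hr with rfl | rfl | rfl | rfl | rfl | rfl
  · obtain ⟨b, h1, h2⟩ := c1 s hs
    exact final M _ (3 * s) hn (by omega) b h1 h2
  · obtain ⟨b, h1, h2⟩ := c7 s hs
    exact final M _ (3 * s + 1) hn (by omega) b h1 h2
  · obtain ⟨b, h1, h2⟩ := c13 s hs
    exact final M _ (3 * s + 2) hn (by omega) b h1 h2
  · obtain ⟨b, h1, h2⟩ := c3 s hs
    exact final M _ (3 * s) hn (by omega) b h1 h2
  · obtain ⟨b, h1, h2⟩ := c9 s hs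
    exact final M _ (3 * s + 1) hn (by omega) b h1 h2
  · obtain ⟨b, h1, h2⟩ := c15 s hs
    exact final M _ (3 * s + 2) hn (by omega) b h1 h2

end Pool.Agent.H.MP_72c5f4_co
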